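import Pool.Agent.Q161.ESG.Stm6

/-!
# A Galois number field which contains given number fields
-/

set_option autoImplicit false

namespace Q211.ESG

open IntermediateField Pool.Agent.Q161.ESG

theorem kxn : S_KXN := by
  intro ι _ L _ _
  let f : ∀ i, L i →ₐ[ℚ] AlgebraicClosure ℚ := fun i => IsAlgClosed.lift
  let S : IntermediateField ℚ (AlgebraicClosure ℚ) := ⨆ i, (f i).fieldRange
  have hfd : ∀ i, FiniteDimensional ℚ (f i).fieldRange := fun i =>
    LinearMap.finiteDimensional_range (f i).toLinearMap
  have : FiniteDimensional ℚ S := IntermediateField.finiteDimensional_iSup_of_finite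
  let K : IntermediateField ℚ (AlgebraicClosure ℚ) := normalClosure ℚ S (AlgebraicClosure ℚ)
  have hK : FiniteDimensional ℚ K :=
    normalClosure.is_finiteDimensional ℚ S (AlgebraicClosure ℚ)
  have hNA : Normal ℚ (AlgebraicClosure ℚ) := by
    have h := @IsAlgClosure.normal ℚ (AlgebraicClosure ℚ) _ _
      (AlgebraicClosure.instAlgebra (k := ℚ) (R := ℚ)) inferInstance
    convert h
    exact Subsingleton.elim _ _
  have hN : Normal ℚ K := normalClosure.normal ℚ S (AlgebraicClosure ℚ)
  have hNF : NumberField K := { to_charZero := inferInstance, to_finiteDimensional := hK }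
  refine ⟨K, inferInstance, hNF, ?_, fun i => ?_⟩
  · exact { to_isSeparable := inferInstance, to_normal := hN }
  · have h1 : ∀ x, (f i).toRingHom x ∈ K.toSubring := fun x =>
      IntermediateField.le_normalClosure S
        ((le_iSup (fun i => (f i).fieldRange) i) ⟨x, rfl⟩)
    exact ⟨(f i).toRingHom.codRestrict K.toSubring h1⟩

end Q211.ESG
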